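import Pool.Agent.EGF.StmtsS

/-!
# Squad EGF, row STG (helper98): one scale
-/

set_option autoImplicit false

open Finset

namespace Pool.Agent.EGF.H98

variable {V : Type} [DecidableEq V] {k : ℕ}

theorem prs_inter (c : V → V → Fin k) (e : Fin k) {A B A' B' : Finset V} (hA : A' ⊆ A)
    (hB : B' ⊆ B) : (A' ×ˢ B') ∩ prs c e A B = prs c e A' B' := by
  unfold prs
  ext p
  simp only [mem_inter, mem_filter, mem_product]
  constructor
  · rintro ⟨h1, _, h2⟩
    exact ⟨h1, h2⟩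
  · rintro ⟨h1, h2⟩
    exact ⟨h1, ⟨hA h1.1, hB h1.2⟩, h2⟩

theorem size_of_log {T0 q a b : ℝ} (hT : 0 < T0) (hq : 0 < q) (ha : 0 < a) {H : ℝ}
    (h : Real.log T0 ≤ Real.log q + b - H) (hb : b - H ≤ Real.log a) : T0 ≤ q * a := by
  have h1 : Real.log T0 ≤ Real.log (q * a) := by
    rw [Real.log_mul hq.ne' ha.ne']
    linarith
  exact (Real.log_le_log_iff hT (mul_pos hq ha)).1 h1

theorem stg (lgt : LgtStmt) (rbc : RbcStmt) (sts : StsStmt) (lre : LreStmt) (cre : CreStmt) :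
    StgStmt := by
  intro V _ k c U A B e s L M ι ρ κ w T T0 h hsym h3 h4 hF hL hs hAU hBU hAB hA hB hι hιM hM hM1
    hκ hκw hw hρ hρ1 hρκ hrec hT hT0 hTι hlA hlB hden hsat hUA hUB hlast
  classical
  have hw0 : 0 < w := lt_of_lt_of_le (by positivity) hκw
  obtain ⟨A1, hA1, B1, hB1, nA1, nB1, lA1, lB1, hreg⟩ := lre V V A B (prs c e A B) M ι ρ hA hB
    hM.le hι hρ hρ1 (by rw [prs_inter c e (Subset.refl A) (Subset.refl B)]; exact hden)
  -- the robust colour
  have hUne : U.Nonempty := hA.mono hAU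
  have hr1 := rbc V k c U A1 T w κ hκ hκw hw hrec (hA1.trans hAU) nA1
    ((big c U T).filter fun g => ¬ Rbs c A1 g T κ) (filter_subset _ _)
    (fun g hg => (mem_filter.1 hg).2)
  have hr2 := rbc V k c U B1 T w κ hκ hκw hw hrec (hB1.trans hBU) nB1
    ((big c U T).filter fun g => ¬ Rbs c B1 g T κ) (filter_subset _ _)
    (fun g hg => (mem_filter.1 hg).2)
  have hg := lgt V k c U s L T hsym h3 hF hL hs hT hUne
  have hs33 : (33 : ℝ) ≤ s := by linarith
  have hlog : 0 < Real.log ((s : ℝ) ^ 2) := Real.log_pos (by nlinarith)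
  have hbig : 4 * (h + 2 / (ι * ρ ^ 2) + 1) < w * (big c U T).card := by
    have h1 : w * (Real.log U.card - Real.log T - Real.log (2 * k) - 3) ≤
        w * ((big c U T).card * Real.log ((s : ℝ) ^ 2)) :=
      mul_le_mul_of_nonneg_left hg hw0.le
    have h2 : 4 * (h + 2 / (ι * ρ ^ 2) + 1) * Real.log ((s : ℝ) ^ 2) <
        (w * (big c U T).card) * Real.log ((s : ℝ) ^ 2) := by
      rw [mul_assoc w]
      exact lt_of_lt_of_le hlast h1
    exact lt_of_mul_lt_mul_right h2 hlog.le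
  obtain ⟨g, hg1, hgA, hgB⟩ : ∃ g ∈ big c U T, Rbs c A1 g T κ ∧ Rbs c B1 g T κ := by
    by_contra hno
    push Not at hno
    have h1 : big c U T ⊆ ((big c U T).filter fun g => ¬ Rbs c A1 g T κ) ∪
        ((big c U T).filter fun g => ¬ Rbs c B1 g T κ) := by
      intro g hg
      rw [mem_union, mem_filter, mem_filter]
      by_cases h5 : Rbs c A1 g T κ
      · exact Or.inr ⟨hg, hno g hg h5⟩
      · exact Or.inl ⟨hg, h5⟩
    have h2 := (card_le_card h1).trans (card_union_le _ _)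
    have h5 : ((big c U T).card : ℝ) ≤ (((big c U T).filter fun g => ¬ Rbs c A1 g T κ).card : ℝ) +
        (((big c U T).filter fun g => ¬ Rbs c B1 g T κ).card : ℝ) := by
      exact_mod_cast h2
    have h6 := mul_le_mul_of_nonneg_left h5 hw0.le
    rw [mul_add] at h6
    linarith
  obtain ⟨m, x, W, sA, cA⟩ := sts V k c A1 g T κ (by linarith) hκ hgA
  obtain ⟨n, y, Z, sB, cB⟩ := sts V k c B1 g T κ (by linarith) hκ hgB
  have pA1 : (0 : ℝ) < A1.card := by exact_mod_cast nA1.card_pos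
  have pB1 : (0 : ℝ) < B1.card := by exact_mod_cast nB1.card_pos
  have hq : 0 < ι * κ / 2 := by positivity
  have tA : T0 ≤ ι * m := by
    have h1 := size_of_log hT0 hq pA1 hlA lA1
    have h2 := mul_le_mul_of_nonneg_left sA.many hι.le
    have h5 : ι * (κ / 2 * A1.card) = ι * κ / 2 * A1.card := by ring
    rw [h5] at h2
    exact h1.trans h2
  have tB : T0 ≤ ι * n := by
    have h1 := size_of_log hT0 hq pB1 hlB lB1
    have h2 := mul_le_mul_of_nonneg_left sB.many hι.le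
    have h5 : ι * (κ / 2 * B1.card) = ι * κ / 2 * B1.card := by ring
    rw [h5] at h2
    exact h1.trans h2
  have dj : ∀ a ∈ A1, ∀ b ∈ B1, a ≠ b := by
    intro a ha b hb hab
    subst hab
    exact disjoint_left.1 hAB (hA1 ha) (hB1 hb)
  refine cre V V A1 B1 (prs c e A B) M ι ρ κ T T0 m n x y W Z nA1 nB1 hι hιM hM hM1 hρ hκ hρκ hT0
    hTι tA tB hreg ?_ sA sB ?_
  · intro A' hA' B' hB' h5 h6
    rw [prs_inter c e (hA'.trans hA1) (hB'.trans hB1)]
    exact hsat A' (hA'.trans hA1) B' (hB'.trans hB1) h5 h6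
  · intro i hi j hj a ha b hb e1 e2 e3 e4
    have c1 : c (x i) (y j) = e := (mem_filter.1 e1).2
    have c2 : c a (y j) = e := (mem_filter.1 e2).2
    have c3 : c (x i) b = e := (mem_filter.1 e3).2
    have c4 : c a b = e := (mem_filter.1 e4).2
    have hxi := sA.xA i hi
    have hyj := sB.xA j hj
    have haA := sA.WA i hi ha
    have hbB := sB.WA j hj hb
    obtain ⟨n1, g1⟩ := cA i hi a ha
    obtain ⟨n2, g2⟩ := cB j hj b hb
    exact h4 (x i) (hAU (hA1 hxi)) a (hAU (hA1 haA)) (y j) (hBU (hB1 hyj)) b (hBU (hB1 hbB))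
      n1.symm n2.symm (dj _ hxi _ hyj) (dj _ hxi _ hbB) (dj _ haA _ hyj) (dj _ haA _ hbB)
      (g1.trans g2.symm) (c1.trans c3.symm) (c1.trans c2.symm) (c1.trans c4.symm)

end Pool.Agent.EGF.H98
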